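import Pool.Agent.Lib.MP_cdc9ab_al.Final

set_option autoImplicit false

namespace Pool.Agent.Results.MP_cdc9ab_al.Comparison

/-- The homogeneous differential: the alternating sum of the values at the faces. -/
noncomputable def dd {X : Type} {n : ℕ} (f : (Fin (n + 1) → X) → ℝ) (x : Fin (n + 2) → X) : ℝ :=
  ∑ i : Fin (n + 2), (-1 : ℝ) ^ (i : ℕ) * f (x ∘ i.succAbove)

section defs
variable (G : Type) [Group G] [TopologicalSpace G]

/-- Cochains of degree `n`: continuous functions on `G^(n+1)` invariant under the diagonal action,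
which are also bounded if `b = true`. -/
def IsCochain (b : Bool) (n : ℕ) (f : (Fin (n + 1) → G) → ℝ) : Prop :=
  Continuous f ∧ (∀ (h : G) (x : Fin (n + 1) → G), f (fun j => h * x j) = f x) ∧
    (b = true → ∃ C : ℝ, ∀ x, |f x| ≤ C)

/-- Cocycles of degree `n`. -/
def Cocycle (b : Bool) (n : ℕ) : Type :=
  {f : (Fin (n + 1) → G) → ℝ // IsCochain G b n f ∧ ∀ x, dd f x = 0}

/-- Coboundaries: zero in degree zero, differentials of cochains in positive degree. -/
def IsCob (b : Bool) : (n : ℕ) → ((Fin (n + 1) → G) → ℝ) → Prop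
  | 0, f => ∀ x, f x = 0
  | n + 1, f => ∃ g, IsCochain G b n g ∧ ∀ x, f x = dd g x

/-- Cohomology: cocycles modulo coboundaries (bounded cohomology if `b = true`). -/
def Coh (b : Bool) (n : ℕ) : Type :=
  Quot fun f f' : Cocycle G b n => IsCob G b n fun x => f.1 x - f'.1 x

theorem IsCochain.forget {n : ℕ} {f : (Fin (n + 1) → G) → ℝ} (h : IsCochain G true n f) :
    IsCochain G false n f :=
  ⟨h.1, h.2.1, fun _ => h.2.2 rfl⟩

/-- A bounded cocycle as a cocycle. -/
def incl (n : ℕ) (f : Cocycle G true n) : Cocycle G false n := ⟨f.1, f.2.1.forget, f.2.2⟩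

theorem incl_cob (n : ℕ) (f f' : Cocycle G true n) (h : IsCob G true n fun x => f.1 x - f'.1 x) :
    IsCob G false n fun x => (incl G n f).1 x - (incl G n f').1 x := by
  cases n with
  | zero => exact h
  | succ n => exact h.imp fun _ k => ⟨k.1.forget, k.2⟩

/-- The comparison map from continuous bounded cohomology to continuous cohomology. -/
def comparison (n : ℕ) : Coh G true n → Coh G false n := Quot.map (incl G n) (incl_cob G n)

end defs

theorem surj_of_rep (G : Type) [Group G] [TopologicalSpace G] (n : ℕ)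
    (h : ∀ f : Cocycle G false n, ∃ g : (Fin n → G) → ℝ, Continuous g ∧
      (∀ (h : G) (x : Fin n → G), g (fun j => h * x j) = g x) ∧ ∃ C : ℝ, ∀ x : Fin (n + 1) → G,
        |f.1 x + Lib.MP_cdc9ab_al.cob g x| ≤ C) :
    Function.Surjective (comparison G n) := by
  rintro ⟨f⟩
  cases n with
  | zero =>
    refine ⟨Quot.mk _ ⟨f.1, ⟨f.2.1.1, f.2.1.2.1, fun _ => ⟨|f.1 fun _ => 1|, fun x => ?_⟩⟩,
      f.2.2⟩, rfl⟩
    rw [← f.2.1.2.1 (x 0)⁻¹ x]
    refine le_of_eq (congrArg (fun y => |f.1 y|) (funext fun j => ?_))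
    rw [Fin.fin_one_eq_zero j, inv_mul_cancel]
  | succ n =>
    obtain ⟨g, g1, g2, C, hC⟩ := h f
    refine ⟨Quot.mk _ ⟨fun x => f.1 x + dd g x, ⟨f.2.1.1.add ?_, fun h x => ?_, fun _ => ⟨C, hC⟩⟩,
      fun x => ?_⟩, Quot.sound ⟨g, ⟨g1, g2, fun k => absurd k Bool.false_ne_true⟩,
        fun x => add_sub_cancel_left _ _⟩⟩
    · exact continuous_finsetSum _ fun i _ => continuous_const.mul
        (g1.comp (continuous_pi fun j => continuous_apply _))
    · exact congrArg₂ (· + ·) (f.2.1.2.1 h x)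
        (Finset.sum_congr rfl fun i _ => congrArg _ (g2 h (x ∘ i.succAbove)))
    · exact (Lib.MP_cdc9ab_al.cob_add f.1 (Lib.MP_cdc9ab_al.cob g) x).trans
        ((congrArg₂ (· + ·) (f.2.2 x) (Lib.MP_cdc9ab_al.cob_cob g x)).trans (add_zero 0))

/-- For every connected real Lie group with finite centre whose Lie algebra has trivial radical the
comparison map is onto in every degree. -/
theorem result :
    ∀ (E : Type) [NormedAddCommGroup E] [NormedSpace ℝ E] [FiniteDimensional ℝ E]
      (G : Type) [TopologicalSpace G] [ChartedSpace E G] [Group G]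
      [LieGroup (modelWithCornersSelf ℝ E) ((⊤ : ℕ∞) : WithTop ℕ∞) G]
      [LieGroup (modelWithCornersSelf ℝ E) (minSmoothness ℝ 3) G],
      ConnectedSpace G → Finite (Subgroup.center G) →
      LieAlgebra.HasTrivialRadical ℝ (GroupLieAlgebra (modelWithCornersSelf ℝ E) G) →
      ∀ n : ℕ, Function.Surjective (comparison G n) := by
  intro E _ _ _ G _ _ _ _ _ hc hz hs n
  refine surj_of_rep G n fun f => ?_
  have : FiniteDimensional ℝ (GroupLieAlgebra (modelWithCornersSelf ℝ E) G) :=
    inferInstanceAs (FiniteDimensional ℝ E)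
  obtain ⟨D, L, e, he⟩ := Lib.MP_cdc9ab_al.exists_ldata
    (GroupLieAlgebra (modelWithCornersSelf ℝ E) G)
  obtain ⟨h2, ρ, hρ, hprop, hrange⟩ := Lib.MP_cdc9ab_al.setup E G hc hz L e he
  have := topologicalGroup_of_lieGroup (modelWithCornersSelf ℝ E) ((⊤ : ℕ∞) : WithTop ℕ∞) (G := G)
  have := FiniteDimensional.proper_real E
  have := ChartedSpace.locallyCompactSpace E G
  have : SigmaCompactSpace G := ⟨⟨fun k : ℕ => {g : G | ∀ i j, |ρ g i j| ≤ k},
    fun k => hprop k, Set.eq_univ_of_forall fun g => by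
      obtain ⟨k, hk⟩ := exists_nat_ge (∑ i, ∑ j, |ρ g i j|)
      refine Set.mem_iUnion.mpr ⟨k, fun i j => le_trans ?_ hk⟩
      exact (Finset.single_le_sum (f := fun j => |ρ g i j|) (fun _ _ => abs_nonneg _)
        (Finset.mem_univ j)).trans (Finset.single_le_sum (f := fun i => ∑ j, |ρ g i j|)
        (fun _ _ => Finset.sum_nonneg fun _ _ => abs_nonneg _) (Finset.mem_univ i))⟩⟩
  have := ChartedSpace.secondCountable_of_sigmaCompact E G
  exact Lib.MP_cdc9ab_al.final_group L ρ hρ hprop hrange n f.1 f.2.1.1 f.2.1.2.1 f.2.2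

end Pool.Agent.Results.MP_cdc9ab_al.Comparison
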